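import Pool.Agent.Q276.HL.Stm2

set_option autoImplicit false

namespace Q278.HL

open Pool.Agent.Q276.HL

lemma icc_card (u v : ℝ) (h : u ≤ v) : ((Finset.Icc ⌈u⌉ ⌊v⌋).card : ℝ) ≤ v - u + 1 := by
  rw [Int.card_Icc]
  have h1 : (⌊v⌋ : ℝ) ≤ v := Int.floor_le v
  have h2 : u ≤ ⌈u⌉ := Int.le_ceil u
  have h3 : (((⌊v⌋ + 1 - ⌈u⌉).toNat : ℤ) : ℝ) ≤ v - u + 1 := by
    rcases le_total 0 (⌊v⌋ + 1 - ⌈u⌉) with h0 | h0
    · rw [Int.toNat_of_nonneg h0]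
      push_cast
      linarith
    · rw [Int.toNat_of_nonpos h0]
      push_cast
      linarith
  exact_mod_cast h3

def Sxy (R : ℝ) (x y : ℤ) : Set (ℤ × ℤ) :=
  {X | |(X.1 : ℝ)| ≤ R ^ 2 ∧ |(X.2 : ℝ)| ≤ R ^ 3 ∧ y ^ 2 = x ^ 3 + X.1 * x + X.2}

def Sx (R : ℝ) (x : ℤ) : Set (ℤ × ℤ) :=
  {X | |(X.1 : ℝ)| ≤ R ^ 2 ∧ |(X.2 : ℝ)| ≤ R ^ 3 ∧ ∃ y : ℤ, 0 ≤ y ∧ y ^ 2 = x ^ 3 + X.1 * x + X.2}

lemma box_finite (R : ℝ) : {X : ℤ × ℤ | |(X.1 : ℝ)| ≤ R ^ 2 ∧ |(X.2 : ℝ)| ≤ R ^ 3}.Finite := by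
  refine Set.Finite.subset ((Set.finite_Icc (-⌊R ^ 2⌋) ⌊R ^ 2⌋).prod (Set.finite_Icc (-⌊R ^ 3⌋) ⌊R ^ 3⌋)) ?_
  rintro ⟨A, B⟩ ⟨h1, h2⟩
  simp only [abs_le] at h1 h2
  refine ⟨⟨?_, Int.le_floor.2 h1.2⟩, ⟨?_, Int.le_floor.2 h2.2⟩⟩
  · rw [neg_le]
    exact Int.le_floor.2 (by push_cast; linarith [h1.1])
  · rw [neg_le]
    exact Int.le_floor.2 (by push_cast; linarith [h2.1])

lemma Sxy_finite (R : ℝ) (x y : ℤ) : (Sxy R x y).Finite :=
  (box_finite R).subset fun _ h => ⟨h.1, h.2.1⟩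

lemma Sx_finite (R : ℝ) (x : ℤ) : (Sx R x).Finite :=
  (box_finite R).subset fun _ h => ⟨h.1, h.2.1⟩

lemma Sxy_le (R : ℝ) (x y : ℤ) (u v : ℝ) (huv : u ≤ v)
    (h : ∀ X ∈ Sxy R x y, u ≤ (X.1 : ℝ) ∧ (X.1 : ℝ) ≤ v) :
    ((Sxy R x y).ncard : ℝ) ≤ v - u + 1 := by
  have h1 : (Sxy R x y).ncard ≤ ((Finset.Icc ⌈u⌉ ⌊v⌋ : Finset ℤ) : Set ℤ).ncard := by
    refine Set.ncard_le_ncard_of_injOn Prod.fst ?_ ?_ (Finset.finite_toSet _)
    · intro X hX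
      obtain ⟨h1, h2⟩ := h X hX
      simp only [Finset.coe_Icc, Set.mem_Icc]
      exact ⟨Int.ceil_le.2 h1, Int.le_floor.2 h2⟩
    · rintro ⟨A, B⟩ ⟨-, -, hX⟩ ⟨A', B'⟩ ⟨-, -, hY⟩ hXY
      simp only at hX hY hXY
      subst hXY
      have : B = B' := by linarith
      rw [this]
  rw [Set.ncard_coe_finset] at h1
  exact (Nat.cast_le.2 h1).trans (icc_card u v huv)

lemma ncard_biUnion {ι α : Type} (t : Finset ι) (s : ι → Set α) :
    (⋃ i ∈ t, s i).ncard ≤ ∑ i ∈ t, (s i).ncard := by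
  classical
  induction t using Finset.induction_on with
  | empty => simp
  | insert a t ha ih =>
    rw [Finset.set_biUnion_insert, Finset.sum_insert ha]
    exact (Set.ncard_union_le _ _).trans (by omega)

lemma Sx_le (R : ℝ) (x : ℤ) (u v N : ℝ) (huv : u ≤ v) (hN : 0 ≤ N)
    (h : ∀ y : ℤ, 0 ≤ y → (Sxy R x y).Nonempty → u ≤ y ∧ y ≤ v)
    (hb : ∀ y : ℤ, ((Sxy R x y).ncard : ℝ) ≤ N) :
    ((Sx R x).ncard : ℝ) ≤ (v - u + 1) * N := by
  have h1 : Sx R x ⊆ ⋃ y ∈ Finset.Icc ⌈u⌉ ⌊v⌋, Sxy R x y := by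
    rintro X ⟨hA, hB, y, hy0, hy⟩
    have hm : X ∈ Sxy R x y := ⟨hA, hB, hy⟩
    obtain ⟨h2, h3⟩ := h y hy0 ⟨X, hm⟩
    simp only [Set.mem_iUnion, Finset.mem_Icc]
    exact ⟨y, ⟨Int.ceil_le.2 h2, Int.le_floor.2 h3⟩, hm⟩
  have h2 : (⋃ y ∈ Finset.Icc ⌈u⌉ ⌊v⌋, Sxy R x y).Finite :=
    Set.Finite.biUnion (Finset.finite_toSet _) fun y _ => Sxy_finite R x y
  have h3 : (Sx R x).ncard ≤ ∑ y ∈ Finset.Icc ⌈u⌉ ⌊v⌋, (Sxy R x y).ncard :=
    (Set.ncard_le_ncard h1 h2).trans (ncard_biUnion _ _)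
  calc ((Sx R x).ncard : ℝ) ≤ ∑ y ∈ Finset.Icc ⌈u⌉ ⌊v⌋, ((Sxy R x y).ncard : ℝ) := by exact_mod_cast h3
    _ ≤ ∑ _y ∈ Finset.Icc ⌈u⌉ ⌊v⌋, N := Finset.sum_le_sum fun y _ => hb y
    _ = ((Finset.Icc ⌈u⌉ ⌊v⌋).card : ℝ) * N := by rw [Finset.sum_const, nsmul_eq_mul]
    _ ≤ (v - u + 1) * N := mul_le_mul_of_nonneg_right (icc_card u v huv) hN

/-- small `x` -/
lemma Sx_small (h : ℝ) (hh : 1 ≤ h) (x : ℤ) (hx : |(x : ℝ)| ≤ 4 * h ^ 10) :
    ((Sx (h ^ 10) x).ncard : ℝ) ≤ 30 * h ^ 35 := by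
  have hp : ∀ n : ℕ, 1 ≤ h ^ n := fun n => one_le_pow₀ hh
  have key := Sx_le (h ^ 10) x 0 (9 * h ^ 15) (3 * h ^ 20) (by positivity) (by positivity) ?_ ?_
  · refine key.trans ?_
    have h1 := hp 15
    have h2 : (9 * h ^ 15 - 0 + 1) * (3 * h ^ 20) ≤ (10 * h ^ 15) * (3 * h ^ 20) := by
      apply mul_le_mul_of_nonneg_right _ (by positivity)
      linarith
    refine h2.trans (le_of_eq ?_)
    ring
  · rintro y hy0 ⟨⟨A, B⟩, hA, hB, hy⟩
    simp only at hA hB hy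
    refine ⟨by exact_mod_cast hy0, ?_⟩
    have hyR : (y : ℝ) ^ 2 = x ^ 3 + A * x + B := by exact_mod_cast hy
    have h3 : (x : ℝ) ^ 3 ≤ 64 * h ^ 30 := by
      calc (x : ℝ) ^ 3 ≤ |(x : ℝ)| ^ 3 := by rw [← abs_pow]; exact le_abs_self _
        _ ≤ (4 * h ^ 10) ^ 3 := pow_le_pow_left₀ (abs_nonneg _) hx 3
        _ = 64 * h ^ 30 := by ring
    have h4 : (A : ℝ) * x ≤ 4 * h ^ 30 := by
      calc (A : ℝ) * x ≤ |(A : ℝ) * x| := le_abs_self _
        _ = |(A : ℝ)| * |(x : ℝ)| := abs_mul _ _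
        _ ≤ (h ^ 10) ^ 2 * (4 * h ^ 10) := mul_le_mul hA hx (abs_nonneg _) (by positivity)
        _ = 4 * h ^ 30 := by ring
    have h5 : (B : ℝ) ≤ h ^ 30 := by
      calc (B : ℝ) ≤ |(B : ℝ)| := le_abs_self _
        _ ≤ (h ^ 10) ^ 3 := hB
        _ = h ^ 30 := by ring
    have h6 : (y : ℝ) ^ 2 ≤ (9 * h ^ 15) ^ 2 := by
      rw [hyR]
      have : (9 * h ^ 15) ^ 2 = 81 * h ^ 30 := by ring
      rw [this]
      have := hp 30
      linarith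
    exact (abs_le_of_sq_le_sq' h6 (by positivity)).2
  · intro y
    refine (Sxy_le (h ^ 10) x y (-(h ^ 20)) (h ^ 20) ?_ ?_).trans ?_
    · have := hp 20
      linarith
    · rintro ⟨A, B⟩ ⟨hA, -, -⟩
      simp only at hA ⊢
      have h1 : (h ^ 10) ^ 2 = h ^ 20 := by ring
      rw [h1, abs_le] at hA
      exact hA
    · have := hp 20
      linarith

/-- large `x` -/
lemma Sx_large (h : ℝ) (hh : 1 ≤ h) (x : ℤ) (hx : 4 * h ^ 10 < (x : ℝ)) (hx2 : (x : ℝ) ≤ h ^ 48) :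
    ((Sx (h ^ 10) x).ncard : ℝ) ≤ 10 * h ^ 45 / x + 1 := by
  have hp : ∀ n : ℕ, 1 ≤ h ^ n := fun n => one_le_pow₀ hh
  have hx0 : (0 : ℝ) < x := lt_of_le_of_lt (by positivity) hx
  set s := √(x : ℝ) with hs
  have hs0 : 0 < s := Real.sqrt_pos.2 hx0
  have hss : s ^ 2 = x := Real.sq_sqrt hx0.le
  have hs5 : h ^ 5 ≤ s := by
    apply Real.le_sqrt_of_sq_le
    have : (h ^ 5) ^ 2 = h ^ 10 := by ring
    rw [this]
    have := hp 10
    linarith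
  have hs24 : s ≤ h ^ 24 := by
    rw [hs, Real.sqrt_le_left (by positivity)]
    have : (h ^ 24) ^ 2 = h ^ 48 := by ring
    rw [this]
    exact hx2
  have h20 : (0 : ℝ) < h ^ 20 := by positivity
  have key := Sx_le (h ^ 10) x (s ^ 3 - 5 / 4 * h ^ 20 / s) (s ^ 3 + 5 / 4 * h ^ 20 / s)
    (2 * h ^ 30 / x + 1) ?_ (by positivity) ?_ ?_
  · refine key.trans ?_
    have e1 : (s ^ 3 + 5 / 4 * h ^ 20 / s - (s ^ 3 - 5 / 4 * h ^ 20 / s) + 1) * (2 * h ^ 30 / x + 1) =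
        5 * h ^ 50 / (s * x) + 5 / 2 * h ^ 20 / s + 2 * h ^ 30 / x + 1 := by
      field_simp
      ring
    rw [e1]
    have e2 : 5 * h ^ 50 / (s * x) ≤ 5 * h ^ 45 / x := by
      rw [div_le_div_iff₀ (by positivity) hx0]
      have : h ^ 50 ≤ h ^ 45 * s := by
        calc h ^ 50 = h ^ 45 * h ^ 5 := by ring
          _ ≤ h ^ 45 * s := mul_le_mul_of_nonneg_left hs5 (by positivity)
      have := mul_le_mul_of_nonneg_right this hx0.le
      linarith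
    have e3 : 5 / 2 * h ^ 20 / s ≤ 5 / 2 * h ^ 45 / x := by
      rw [div_le_div_iff₀ hs0 hx0, ← hss]
      have : h ^ 20 * s ≤ h ^ 45 := by
        calc h ^ 20 * s ≤ h ^ 20 * h ^ 24 := mul_le_mul_of_nonneg_left hs24 (by positivity)
          _ = h ^ 44 := by ring
          _ ≤ h ^ 45 := pow_le_pow_right₀ hh (by norm_num)
      have := mul_le_mul_of_nonneg_right this hs0.le
      linarith
    have e4 : 2 * h ^ 30 / x ≤ 2 * h ^ 45 / x := by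
      apply div_le_div_of_nonneg_right _ hx0.le
      have : h ^ 30 ≤ h ^ 45 := pow_le_pow_right₀ hh (by norm_num)
      linarith
    have e5 : 5 * h ^ 45 / x + 5 / 2 * h ^ 45 / x + 2 * h ^ 45 / x ≤ 10 * h ^ 45 / x := by
      rw [← add_div, ← add_div]
      apply div_le_div_of_nonneg_right _ hx0.le
      have : 0 < h ^ 45 := by positivity
      linarith
    linarith
  · have : 0 ≤ 5 / 4 * h ^ 20 / s := by positivity
    linarith
  · rintro y hy0 ⟨⟨A, B⟩, hA, hB, hy⟩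
    simp only at hA hB hy
    have hyR : (y : ℝ) ^ 2 = x ^ 3 + A * x + B := by exact_mod_cast hy
    have hy0' : (0 : ℝ) ≤ y := by exact_mod_cast hy0
    have h3 : |(A : ℝ) * x + B| ≤ 5 / 4 * h ^ 20 * x := by
      calc |(A : ℝ) * x + B| ≤ |(A : ℝ) * x| + |(B : ℝ)| := abs_add_le _ _
        _ = |(A : ℝ)| * x + |(B : ℝ)| := by rw [abs_mul, abs_of_pos hx0]
        _ ≤ (h ^ 10) ^ 2 * x + (h ^ 10) ^ 3 := add_le_add (mul_le_mul_of_nonneg_right hA hx0.le) hB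
        _ ≤ 5 / 4 * h ^ 20 * x := by
          have e : (h ^ 10) ^ 3 = h ^ 20 * h ^ 10 := by ring
          have e' : (h ^ 10) ^ 2 = h ^ 20 := by ring
          rw [e, e']
          nlinarith
    have h4 : (y - s ^ 3) * (y + s ^ 3) = A * x + B := by
      have : (s ^ 3) ^ 2 = (x : ℝ) ^ 3 := by rw [← hss]; ring
      nlinarith
    have h5 : |(y : ℝ) - s ^ 3| ≤ 5 / 4 * h ^ 20 / s := by
      rw [le_div_iff₀ hs0]
      have h6 : |(y : ℝ) - s ^ 3| * s ^ 3 ≤ 5 / 4 * h ^ 20 * x := by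
        calc |(y : ℝ) - s ^ 3| * s ^ 3 ≤ |(y : ℝ) - s ^ 3| * (y + s ^ 3) :=
              mul_le_mul_of_nonneg_left (by linarith) (abs_nonneg _)
          _ = |((y : ℝ) - s ^ 3) * (y + s ^ 3)| := by
              rw [abs_mul, abs_of_nonneg (by positivity : (0 : ℝ) ≤ y + s ^ 3)]
          _ = |(A : ℝ) * x + B| := by rw [h4]
          _ ≤ _ := h3
      have h7 : |(y : ℝ) - s ^ 3| * s * s ^ 2 ≤ 5 / 4 * h ^ 20 * s ^ 2 := by
        rw [hss]
        calc |(y : ℝ) - s ^ 3| * s * x = |(y : ℝ) - s ^ 3| * s ^ 3 := by rw [← hss]; ring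
          _ ≤ _ := h6
      exact le_of_mul_le_mul_right h7 (by positivity)
    rw [abs_le] at h5
    exact ⟨by linarith [h5.1], by linarith [h5.2]⟩
  · intro y
    refine (Sxy_le (h ^ 10) x y (((y : ℝ) ^ 2 - x ^ 3 - h ^ 30) / x) (((y : ℝ) ^ 2 - x ^ 3 + h ^ 30) / x) ?_ ?_).trans ?_
    · apply div_le_div_of_nonneg_right _ hx0.le
      have := hp 30
      linarith
    · rintro ⟨A, B⟩ ⟨-, hB, hy⟩
      simp only at hB hy ⊢
      have hyR : (y : ℝ) ^ 2 = x ^ 3 + A * x + B := by exact_mod_cast hy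
      have h1 : (h ^ 10) ^ 3 = h ^ 30 := by ring
      rw [h1, abs_le] at hB
      rw [div_le_iff₀ hx0, le_div_iff₀ hx0]
      exact ⟨by linarith [hB.1], by linarith [hB.2]⟩
    · apply le_of_eq
      field_simp
      ring

theorem low1 : StmtLOW1 := by
  refine ⟨1000, by norm_num, fun R hR => ?_⟩
  obtain ⟨h, hh, rfl⟩ : ∃ h : ℝ, 1 ≤ h ∧ R = h ^ 10 := by
    refine ⟨R ^ ((1 : ℝ) / 10), Real.one_le_rpow hR (by norm_num), ?_⟩
    rw [← Real.rpow_natCast, ← Real.rpow_mul (by linarith)]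
    norm_num
  have hh0 : (0 : ℝ) ≤ h := by linarith
  have hp : ∀ n : ℕ, 1 ≤ h ^ n := fun n => one_le_pow₀ hh
  have e48 : (h ^ 10) ^ ((24 : ℝ) / 5) = h ^ 48 := by
    rw [← Real.rpow_natCast, ← Real.rpow_natCast, ← Real.rpow_mul hh0]
    norm_num
  have e49 : (h ^ 10) ^ ((49 : ℝ) / 10) = h ^ 49 := by
    rw [← Real.rpow_natCast, ← Real.rpow_natCast, ← Real.rpow_mul hh0]
    norm_num
  rw [e48, e49]
  set N := ⌊h ^ 48⌋₊ with hN
  have hNle : (N : ℝ) ≤ h ^ 48 := Nat.floor_le (by positivity)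
  have hN1 : 1 ≤ N := Nat.le_floor (by exact_mod_cast hp 48)
  set T : ℕ → Set (ℤ × ℤ) := fun n => {X | X ∈ Sx (h ^ 10) n ∧ 4 * h ^ 10 < (n : ℝ)} with hT
  have hTf : ∀ n, (T n).Finite := fun n => (Sx_finite _ _).subset fun X hX => hX.1
  set U : Set (ℤ × ℤ) := (⋃ x ∈ Finset.Icc ⌈-(4 * h ^ 10)⌉ ⌊4 * h ^ 10⌋, Sx (h ^ 10) x) with hU
  set W : Set (ℤ × ℤ) := ⋃ n ∈ Finset.Icc 1 N, T n with hW
  have hUf : U.Finite := Set.Finite.biUnion (Finset.finite_toSet _) fun y _ => Sx_finite _ _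
  have hWf : W.Finite := Set.Finite.biUnion (Finset.finite_toSet _) fun y _ => hTf _
  have hsub : {X : ℤ × ℤ | |(X.1 : ℝ)| ≤ (h ^ 10) ^ 2 ∧ |(X.2 : ℝ)| ≤ (h ^ 10) ^ 3 ∧
      ∃ x y : ℤ, y ^ 2 = x ^ 3 + X.1 * x + X.2 ∧ (x : ℝ) ≤ h ^ 48} ⊆ U ∪ W := by
    rintro ⟨A, B⟩ ⟨hA, hB, x, y, hy, hx⟩
    simp only at hA hB hy hx
    have hm : ((A, B) : ℤ × ℤ) ∈ Sx (h ^ 10) x := ⟨hA, hB, |y|, abs_nonneg _, by rw [sq_abs]; exact hy⟩
    have hyR : (y : ℝ) ^ 2 = x ^ 3 + A * x + B := by exact_mod_cast hy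
    by_cases hx4 : (x : ℝ) ≤ 4 * h ^ 10
    · left
      simp only [hU, Set.mem_iUnion, Finset.mem_Icc]
      refine ⟨x, ⟨Int.ceil_le.2 ?_, Int.le_floor.2 hx4⟩, hm⟩
      by_contra hneg
      push Not at hneg
      have hr := hp 10
      set r := h ^ 10 with hr'
      have h1 : (A : ℝ) * x ≤ r ^ 2 * (-x) := by
        calc (A : ℝ) * x ≤ |(A : ℝ) * x| := le_abs_self _
          _ = |(A : ℝ)| * (-x) := by rw [abs_mul, abs_of_neg (by linarith : (x : ℝ) < 0)]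
          _ ≤ _ := mul_le_mul_of_nonneg_right hA (by linarith)
      have h2 : (B : ℝ) ≤ r ^ 3 := (le_abs_self _).trans hB
      have h3 : (x : ℝ) ^ 3 ≤ 16 * r ^ 2 * x := by
        have : 16 * r ^ 2 ≤ (x : ℝ) ^ 2 := by nlinarith
        calc (x : ℝ) ^ 3 = x ^ 2 * x := by ring
          _ ≤ 16 * r ^ 2 * x := mul_le_mul_of_nonpos_right this (by linarith)
      have h4 : 0 ≤ (y : ℝ) ^ 2 := sq_nonneg _
      have h5 : 15 * r ^ 2 * x < 15 * r ^ 2 * (-(4 * r)) := by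
        apply mul_lt_mul_of_pos_left hneg (by positivity)
      have h6 : 0 < r ^ 3 := by positivity
      nlinarith
    · right
      push Not at hx4
      have hx0 : (0 : ℝ) < x := lt_of_le_of_lt (by positivity) hx4
      have hx0' : 0 < x := by exact_mod_cast hx0
      obtain ⟨n, rfl⟩ := Int.eq_ofNat_of_zero_le hx0'.le
      simp only [hW, Set.mem_iUnion, Finset.mem_Icc]
      refine ⟨n, ⟨by exact_mod_cast hx0', Nat.le_floor (by exact_mod_cast hx)⟩, hm, by exact_mod_cast hx4⟩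
  have b1 : (U.ncard : ℝ) ≤ 270 * h ^ 45 := by
    have h1 : (U.ncard : ℝ) ≤ ∑ x ∈ Finset.Icc ⌈-(4 * h ^ 10)⌉ ⌊4 * h ^ 10⌋, ((Sx (h ^ 10) x).ncard : ℝ) := by
      exact_mod_cast ncard_biUnion _ _
    refine h1.trans ?_
    calc ∑ x ∈ Finset.Icc ⌈-(4 * h ^ 10)⌉ ⌊4 * h ^ 10⌋, ((Sx (h ^ 10) x).ncard : ℝ)
        ≤ ∑ _x ∈ Finset.Icc ⌈-(4 * h ^ 10)⌉ ⌊4 * h ^ 10⌋, 30 * h ^ 35 := by
          refine Finset.sum_le_sum fun x hx => Sx_small h hh x ?_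
          rw [Finset.mem_Icc, Int.ceil_le, Int.le_floor] at hx
          rw [abs_le]
          exact hx
      _ = ((Finset.Icc ⌈-(4 * h ^ 10)⌉ ⌊4 * h ^ 10⌋).card : ℝ) * (30 * h ^ 35) := by
          rw [Finset.sum_const, nsmul_eq_mul]
      _ ≤ (4 * h ^ 10 - -(4 * h ^ 10) + 1) * (30 * h ^ 35) := by
          apply mul_le_mul_of_nonneg_right (icc_card _ _ _) (by positivity)
          have := hp 10
          linarith
      _ ≤ (9 * h ^ 10) * (30 * h ^ 35) := by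
          apply mul_le_mul_of_nonneg_right _ (by positivity)
          have := hp 10
          linarith
      _ = 270 * h ^ 45 := by ring
  have b2 : (W.ncard : ℝ) ≤ 490 * h ^ 46 + h ^ 48 := by
    have h1 : (W.ncard : ℝ) ≤ ∑ n ∈ Finset.Icc 1 N, ((T n).ncard : ℝ) := by
      exact_mod_cast ncard_biUnion _ _
    refine h1.trans ?_
    calc ∑ n ∈ Finset.Icc 1 N, ((T n).ncard : ℝ)
        ≤ ∑ n ∈ Finset.Icc 1 N, (10 * h ^ 45 * (n : ℝ)⁻¹ + 1) := by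
          refine Finset.sum_le_sum fun n hn => ?_
          rw [Finset.mem_Icc] at hn
          by_cases hn4 : 4 * h ^ 10 < (n : ℝ)
          · have h2 : (T n).ncard ≤ (Sx (h ^ 10) n).ncard :=
              Set.ncard_le_ncard (fun X hX => hX.1) (Sx_finite _ _)
            have h3 := Sx_large h hh n (by exact_mod_cast hn4) (by
              have : (n : ℝ) ≤ N := by exact_mod_cast hn.2
              push_cast
              linarith)
            calc ((T n).ncard : ℝ) ≤ ((Sx (h ^ 10) n).ncard : ℝ) := by exact_mod_cast h2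
              _ ≤ _ := h3
              _ = _ := by push_cast; rw [div_eq_mul_inv]
          · have h2 : T n = ∅ := by
              ext X
              simp only [hT, Set.mem_setOf_eq, Set.mem_empty_iff_false, iff_false, not_and]
              exact fun _ => hn4
            rw [h2, Set.ncard_empty]
            push_cast
            positivity
      _ = 10 * h ^ 45 * (harmonic N : ℝ) + N := by
          rw [Finset.sum_add_distrib, ← Finset.mul_sum, harmonic_eq_sum_Icc]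
          push_cast
          simp
      _ ≤ 10 * h ^ 45 * (49 * h) + h ^ 48 := by
          have h2 := harmonic_le_one_add_log N
          have h3 : Real.log N ≤ 48 * h := by
            calc Real.log N ≤ Real.log (h ^ 48) := Real.log_le_log (by exact_mod_cast hN1) hNle
              _ = 48 * Real.log h := by rw [Real.log_pow]; norm_num
              _ ≤ 48 * h := by
                have := Real.log_le_self hh0
                linarith
          have h4 : (harmonic N : ℝ) ≤ 49 * h := by linarith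
          have := mul_le_mul_of_nonneg_left h4 (by positivity : (0 : ℝ) ≤ 10 * h ^ 45)
          linarith
      _ = 490 * h ^ 46 + h ^ 48 := by ring
  have b3 := Set.ncard_le_ncard hsub (hUf.union hWf)
  have b4 := Set.ncard_union_le U W
  have b5 : ({X : ℤ × ℤ | |(X.1 : ℝ)| ≤ (h ^ 10) ^ 2 ∧ |(X.2 : ℝ)| ≤ (h ^ 10) ^ 3 ∧
      ∃ x y : ℤ, y ^ 2 = x ^ 3 + X.1 * x + X.2 ∧ (x : ℝ) ≤ h ^ 48}.ncard : ℝ) ≤ U.ncard + W.ncard := by
    exact_mod_cast b3.trans b4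
  have c1 : h ^ 45 ≤ h ^ 49 := pow_le_pow_right₀ hh (by norm_num)
  have c2 : h ^ 46 ≤ h ^ 49 := pow_le_pow_right₀ hh (by norm_num)
  have c3 : h ^ 48 ≤ h ^ 49 := pow_le_pow_right₀ hh (by norm_num)
  have c4 : 0 ≤ h ^ 49 := by positivity
  linarith

end Q278.HL
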